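import Pool.Agent.helper67.TSC.Spec

/-!
# Project ts, row GDK: pigeonhole
-/

set_option autoImplicit false

open Finset

noncomputable section

namespace Pool.Agent.TSC

open Pool.Agent.EP

open Classical in
/-- **GDK** -/
theorem GDK (hDIG : DIG_stmt) (hBDK : BDK_stmt) (hPMC : PMC_stmt) : GDK_stmt := by
  obtain ⟨c₁, K₁, hc₁, hP⟩ := hPMC
  refine ⟨c₁ / 2, 144 / c₁, K₁ + 10, by positivity, ?_⟩
  intro K b h hK hKb hC
  have hK1 : K₁ ≤ K := by omega
  have hK10 : 10 ≤ K := by omega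
  have hKR : (10 : ℝ) ≤ K := by exact_mod_cast hK10
  have hlog : 0 < Real.log K := Real.log_pos (by linarith)
  have hPM := hP K hK1
  have hB := hBDK K (2 ^ b) h Nat.one_le_two_pow hKb
  set Bd : Finset ℕ := {k ∈ Ioc K (2 * K) | ∃ t : ℕ,
      (2 : ℤ) ^ h * |((k * 2 ^ b : ℕ) : ℤ) - 48 * (t : ℤ) ^ 2| ≤ 8 * (Nat.sqrt (k * 2 ^ b) : ℤ)} with hBd
  set A : ℕ → Finset ℕ := fun i => {k ∈ PM K | #(ws (k * 2 ^ (b + 2 * i))) % 2 = 1} with hA
  have hsub : PM K ⊆ Bd ∪ (range (h + 1)).biUnion A := by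
    intro k hk
    rw [Finset.mem_union]
    by_cases hall : ∀ i ≤ h, #(ws (k * 2 ^ b * 4 ^ i)) % 2 = 0
    · left
      have hk' := hk
      rw [PM, Finset.mem_filter, Finset.mem_Ioc] at hk'
      obtain ⟨⟨hk1, hk2⟩, hkp, hkm⟩ := hk'
      have h2b : 1 ≤ 2 ^ b := Nat.one_le_two_pow
      have h9 : 9 ≤ k * 2 ^ b := by nlinarith
      have h3 : ¬ 3 ∣ k * 2 ^ b := by
        intro hd
        rcases (Nat.Prime.dvd_mul Nat.prime_three).1 hd with hd | hd
        · omega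
        · have := Nat.Prime.dvd_of_dvd_pow Nat.prime_three hd
          omega
      obtain ⟨t, ht⟩ := hDIG (k * 2 ^ b) h h9 h3 hall
      rw [hBd, Finset.mem_filter, Finset.mem_Ioc]
      exact ⟨⟨hk1, hk2⟩, t, ht⟩
    · right
      push Not at hall
      obtain ⟨i, hi, hne⟩ := hall
      rw [Finset.mem_biUnion]
      refine ⟨i, Finset.mem_range.2 (by omega), ?_⟩
      simp only [hA, Finset.mem_filter]
      refine ⟨hk, ?_⟩
      have e : k * 2 ^ (b + 2 * i) = k * 2 ^ b * 4 ^ i := by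
        rw [pow_add, pow_mul, mul_assoc]
        norm_num
      rw [e]
      omega
  have hcard : #(PM K) ≤ #Bd + ∑ i ∈ range (h + 1), #(A i) :=
    (Finset.card_le_card hsub).trans ((Finset.card_union_le _ _).trans
      (Nat.add_le_add_left Finset.card_biUnion_le _))
  have hcardR : (#(PM K) : ℝ) ≤ (#Bd : ℝ) + ∑ i ∈ range (h + 1), (#(A i) : ℝ) := by exact_mod_cast hcard
  have hBR : (2 : ℝ) ^ h * (#Bd : ℝ) ≤ 72 * K := by exact_mod_cast hB
  have hbound : (#Bd : ℝ) ≤ c₁ / 2 * K / Real.log K := by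
    rw [le_div_iff₀ hlog]
    have h1 : 144 / c₁ * Real.log K * (#Bd : ℝ) ≤ 72 * K :=
      (mul_le_mul_of_nonneg_right hC (Nat.cast_nonneg _)).trans hBR
    have h2 : 144 / c₁ * Real.log K * (#Bd : ℝ) = 144 * (Real.log K * (#Bd : ℝ)) / c₁ := by ring
    rw [h2, div_le_iff₀ hc₁] at h1
    linarith
  by_contra hcon
  push Not at hcon
  have hsum : ∑ i ∈ range (h + 1), (#(A i) : ℝ) <
      ∑ i ∈ range (h + 1), c₁ / 2 * K / ((h + 1) * Real.log K) := by
    apply Finset.sum_lt_sum_of_nonempty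
    · exact ⟨0, Finset.mem_range.2 (by omega)⟩
    · intro i hi
      exact hcon i (by have := Finset.mem_range.1 hi; omega)
  rw [Finset.sum_const, Finset.card_range, nsmul_eq_mul] at hsum
  have h3 : ((h + 1 : ℕ) : ℝ) * (c₁ / 2 * K / ((h + 1) * Real.log K)) = c₁ / 2 * K / Real.log K := by
    push_cast
    field_simp
  rw [h3] at hsum
  have h4 : c₁ / 2 * K / Real.log K + c₁ / 2 * K / Real.log K = c₁ * K / Real.log K := by ring
  linarith

end Pool.Agent.TSC
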